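import Mathlib

/-!
Real inequalities for one edge of a killed network: `p`, `r` are the effective
conductances (to the ground) seen beyond the two ends of a unit edge.
-/

namespace R653.AR

/-- The weight of an edge with outer conductances `p`, `r`. -/
noncomputable def Phi (K s p r : ℝ) : ℝ :=
  (p * (1 + p) + r * (1 + r)) / (p + r + p * r) ^ 2 - K * (p + r) / (p + r + p * r) + 2 * s

/-- The two conditions on the line `d ↦ K - s d` that the edge inequalities use. -/
structure Good (K s : ℝ) : Prop where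
  h2 : ∀ w : ℝ, 3 / 2 ≤ w → K - 2 * s * w ≤ (2 * w - 1) / (4 * w * (w - 1))
  h3 : ∀ w : ℝ, 1 ≤ w → w ≤ 3 / 2 → K - 2 * s * w ≤ 1.71 - 0.71 * w

theorem Phi_symm (K s p r : ℝ) : Phi K s p r = Phi K s r p := by
  unfold Phi
  have h1 : r + p + r * p = p + r + p * r := by ring
  rw [h1]
  ring

theorem Phi_eq {K s p r : ℝ} (hp : 0 < p) (hr : 0 < r) :
    Phi K s p r * ((p + r + p * r) / (p + r)) ^ 2 =
      1 + (3 - 2 * ((p + r + p * r) / (p + r))) / (p + r)
        - ((p + r + p * r) / (p + r)) * (K - 2 * s * ((p + r + p * r) / (p + r))) := by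
  unfold Phi
  have h1 : p + r ≠ 0 := by positivity
  have h2 : p + r + p * r ≠ 0 := by positivity
  field_simp
  ring

theorem w_gt_one {p r : ℝ} (hp : 0 < p) (hr : 0 < r) : 1 < (p + r + p * r) / (p + r) := by
  rw [lt_div_iff₀ (by positivity)]
  have := mul_pos hp hr
  linarith

/-- `σ ≥ 4 (w - 1)` -/
theorem sigma_ge {p r : ℝ} (hp : 0 < p) (hr : 0 < r) :
    4 * ((p + r + p * r) / (p + r) - 1) ≤ p + r := by
  have h1 : (p + r + p * r) / (p + r) - 1 = p * r / (p + r) := by
    field_simp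
    ring
  rw [h1, ← mul_div_assoc, div_le_iff₀ (by positivity)]
  nlinarith [sq_nonneg (p - r)]

theorem Phi_nonneg_of_w {K s p r : ℝ} (hG : Good K s) (hp : 0 < p) (hr : 0 < r)
    (hw : 3 / 2 ≤ (p + r + p * r) / (p + r)) : 0 ≤ Phi K s p r := by
  have he := Phi_eq (K := K) (s := s) hp hr
  have hs := sigma_ge hp hr
  have hσ : 0 < p + r := by positivity
  set w := (p + r + p * r) / (p + r) with hwdef
  have h2 := hG.h2 w hw
  have hw1 : 0 < w - 1 := by linarith
  have hw0 : 0 < w := by linarith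
  have h3 : (3 - 2 * w) / (4 * (w - 1)) ≤ (3 - 2 * w) / (p + r) := by
    rw [div_le_div_iff₀ (by positivity) hσ]
    nlinarith
  have h4 : w * (K - 2 * s * w) ≤ (2 * w - 1) / (4 * (w - 1)) := by
    calc w * (K - 2 * s * w) ≤ w * ((2 * w - 1) / (4 * w * (w - 1))) :=
          mul_le_mul_of_nonneg_left h2 hw0.le
      _ = (2 * w - 1) / (4 * (w - 1)) := by
          field_simp
  have h5 : 1 + (3 - 2 * w) / (4 * (w - 1)) - (2 * w - 1) / (4 * (w - 1)) = 0 := by
    field_simp
    ring
  have h6 : 0 ≤ Phi K s p r * w ^ 2 := by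
    rw [he]; linarith
  by_contra hneg
  push Not at hneg
  have : Phi K s p r * w ^ 2 < 0 := mul_neg_of_neg_of_pos hneg (by positivity)
  linarith

theorem Phi_lower {K s p r : ℝ} (hG : Good K s) (hp : 0 < p) (hr : 0 < r)
    (hw : (p + r + p * r) / (p + r) ≤ 3 / 2) :
    ((p + r + p * r) / (p + r) - 1) * (0.71 * ((p + r + p * r) / (p + r)) - 1)
      + (3 - 2 * ((p + r + p * r) / (p + r))) / (p + r)
      ≤ Phi K s p r * ((p + r + p * r) / (p + r)) ^ 2 := by
  have he := Phi_eq (K := K) (s := s) hp hr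
  have hw1 := w_gt_one hp hr
  set w := (p + r + p * r) / (p + r) with hwdef
  have h3 := hG.h3 w hw1.le hw
  rw [he]
  have h4 : w * (K - 2 * s * w) ≤ w * (1.71 - 0.71 * w) :=
    mul_le_mul_of_nonneg_left h3 (by linarith)
  have h5 : w * (1.71 - 0.71 * w) = 1 - (w - 1) * (0.71 * w - 1) := by ring
  linarith

/-- If the weight is negative then `σ ≥ 16.5` and `w < 1.40846`. -/
theorem neg_imp {K s p r : ℝ} (hG : Good K s) (hp : 0 < p) (hr : 0 < r)
    (hneg : Phi K s p r < 0) :
    16.5 ≤ p + r ∧ (p + r + p * r) / (p + r) ≤ 1.40846 := by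
  have hw1 := w_gt_one hp hr
  have hσ : 0 < p + r := by positivity
  have hw2 : (p + r + p * r) / (p + r) < 3 / 2 := by
    by_contra h
    push Not at h
    exact absurd (Phi_nonneg_of_w hG hp hr h) (not_le.mpr hneg)
  have h := Phi_lower hG hp hr hw2.le
  set w := (p + r + p * r) / (p + r) with hwdef
  have hlt : Phi K s p r * w ^ 2 < 0 := mul_neg_of_neg_of_pos hneg (by positivity)
  have h1 : (3 - 2 * w) / (p + r) < (w - 1) * (1 - 0.71 * w) := by nlinarith
  have h2 : 0 < (3 - 2 * w) / (p + r) := div_pos (by linarith) hσ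
  have h3 : 0 < (w - 1) * (1 - 0.71 * w) := lt_trans h2 h1
  have h4 : 0 < 1 - 0.71 * w := by
    rcases (mul_pos_iff.mp h3) with h | h
    · exact h.2
    · exfalso; linarith [h.1]
  refine ⟨?_, by linarith⟩
  rw [div_lt_iff₀ hσ] at h1
  have h5 : 0 < 3 - 2 * w - 16.5 * ((w - 1) * (1 - 0.71 * w)) := by
    nlinarith [sq_nonneg (w - 1.2896)]
  by_contra h6
  push Not at h6
  nlinarith

/-- bad darts: the near side conductance is small and the far side one is large -/
theorem neg_imp' {K s p r : ℝ} (hG : Good K s) (hp : 0 < p) (hr : 0 < r)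
    (hneg : Phi K s p r < 0) (hpr : r ≤ p) : 16 ≤ p ∧ r ≤ 0.42 := by
  obtain ⟨h1, h2⟩ := neg_imp hG hp hr hneg
  rw [div_le_iff₀ (by positivity)] at h2
  have h3 : p * r ≤ 0.40846 * (p + r) := by linarith
  have hp8 : 8.25 ≤ p := by linarith
  have hr1 : r ≤ 0.43 := by
    by_contra h
    push Not at h
    nlinarith
  have hp16 : 16 ≤ p := by linarith
  refine ⟨hp16, ?_⟩
  by_contra h
  push Not at h
  nlinarith

theorem Phi_ge_const {K s p r : ℝ} (hG : Good K s) (hp : 0 < p) (hr : 0 < r) :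
    -0.021025 ≤ Phi K s p r := by
  have hw1 := w_gt_one hp hr
  have hσ : 0 < p + r := by positivity
  rcases le_total ((p + r + p * r) / (p + r)) (3 / 2) with hw2 | hw2
  · have h := Phi_lower hG hp hr hw2
    set w := (p + r + p * r) / (p + r) with hwdef
    have h2 : 0 ≤ (3 - 2 * w) / (p + r) := div_nonneg (by linarith) hσ.le
    have h3 : (w - 1) * (0.71 * w - 1) ≤ Phi K s p r * w ^ 2 := by linarith
    have hwpos : 0 < w ^ 2 := by positivity
    by_contra hneg
    push Not at hneg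
    have h4 : Phi K s p r * w ^ 2 < -0.021025 * w ^ 2 := mul_lt_mul_of_pos_right hneg hwpos
    nlinarith [sq_nonneg (0.855 * w - 1)]
  · have := Phi_nonneg_of_w hG hp hr hw2
    linarith

theorem Phi_ge_lin {K s p r : ℝ} (hG : Good K s) (hp : 0 < p) (hr : 0 < r) :
    -0.3 * r ≤ Phi K s p r := by
  have hw1 := w_gt_one hp hr
  have hσ : 0 < p + r := by positivity
  rcases le_total ((p + r + p * r) / (p + r)) (3 / 2) with hw2 | hw2
  · have h := Phi_lower hG hp hr hw2
    have hwr : (p + r + p * r) / (p + r) - 1 ≤ r := by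
      have h1 : (p + r + p * r) / (p + r) - 1 = p * r / (p + r) := by
        field_simp
        ring
      rw [h1, div_le_iff₀ hσ]
      nlinarith
    set w := (p + r + p * r) / (p + r) with hwdef
    have h2 : 0 ≤ (3 - 2 * w) / (p + r) := div_nonneg (by linarith) hσ.le
    have h3 : (w - 1) * (0.71 * w - 1) ≤ Phi K s p r * w ^ 2 := by linarith
    have h4 : -0.29 * r ≤ (w - 1) * (0.71 * w - 1) := by nlinarith
    by_contra hneg
    push Not at hneg
    have h5 : Phi K s p r * w ^ 2 < -0.3 * r * w ^ 2 :=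
      mul_lt_mul_of_pos_right hneg (by positivity)
    have h6 : 1 ≤ w ^ 2 := by nlinarith
    nlinarith
  · have := Phi_nonneg_of_w hG hp hr hw2
    linarith

theorem Phi_side {K s p r : ℝ} (hG : Good K s) (hp : 0 < p) (hc : p / (1 + p) ≤ 0.42)
    (hr : 0.94 ≤ r) (hr2 : r + p / (1 + p) ≤ 1.42) :
    0.0211 ≤ Phi K s p r ∧ p < r := by
  have hr0 : 0 < r := by linarith
  have hσ : 0 < p + r := by positivity
  have hw1 := w_gt_one hp hr0
  set c := p / (1 + p) with hcdef
  have hc0 : 0 < c := by positivity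
  have hpc : p = c / (1 - c) := by
    rw [hcdef]; field_simp; ring
  have hpc' : p * (1 - c) = c := by
    rw [hcdef]; field_simp; ring
  have hp7 : p ≤ 0.7242 := by
    by_contra h
    push Not at h
    nlinarith
  have hσ2 : p + r ≤ 1.7242 := by
    nlinarith
  have hw2 : (p + r + p * r) / (p + r) ≤ 1.42 := by
    rw [div_le_iff₀ hσ]
    -- p r ≤ 0.42 (p + r)
    have : p * r ≤ 0.42 * (p + r) := by
      rcases le_total p 0.42 with h | h
      · nlinarith
      · -- r (p - .42) ≤ (1.42 - c)(p - .42) ≤ .42 p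
        have h1 : r * (p - 0.42) ≤ (1.42 - c) * (p - 0.42) := by nlinarith
        nlinarith
    linarith
  have h := Phi_lower hG hp hr0 (by linarith)
  set w := (p + r + p * r) / (p + r) with hwdef
  have h2 : (3 - 2 * w) / 1.7242 ≤ (3 - 2 * w) / (p + r) := by
    apply div_le_div_of_nonneg_left (by linarith) hσ hσ2
  have h3 : (w - 1) * (0.71 * w - 1) + (3 - 2 * w) / 1.7242 ≤ Phi K s p r * w ^ 2 := by linarith
  have h4 : 0.0211 * w ^ 2 ≤ (w - 1) * (0.71 * w - 1) + (3 - 2 * w) / 1.7242 := by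
    have : (3 - 2 * w) / 1.7242 ≥ 1.7399 - 1.16 * w := by
      rw [ge_iff_le, le_div_iff₀ (by norm_num)]
      nlinarith
    nlinarith [mul_nonneg (sub_nonneg.mpr hw1.le) (sub_nonneg.mpr hw2)]
  refine ⟨?_, by linarith⟩
  by_contra hneg
  push Not at hneg
  have h5 : Phi K s p r * w ^ 2 < 0.0211 * w ^ 2 := mul_lt_mul_of_pos_right hneg (by positivity)
  linarith

end R653.AR
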