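import Mathlib
import Pool.Agent.R653.AR.Edge

/-!
Finite networks given by darts (oriented edges), the killed Green function, and the
branch conductances obtained as the minimal fixed point of the tree recursion.
-/

namespace R653.AR

open Finset

/-- A finite unit-resistor network, as a system of darts. -/
structure Darts (V D : Type*) where
  src : D → V
  rev : D → D
  rev_rev : ∀ d, rev (rev d) = d
  rev_ne : ∀ d, rev d ≠ d

namespace Darts

variable {V D : Type*} [Fintype V] [DecidableEq V] [Fintype D] [DecidableEq D]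
  (N : Darts V D)

def tgt (d : D) : V := N.src (N.rev d)

theorem tgt_rev (d : D) : N.tgt (N.rev d) = N.src d := by
  unfold tgt; rw [N.rev_rev]

/-- The involution as an equivalence. -/
def revE : D ≃ D := ⟨N.rev, N.rev, N.rev_rev, N.rev_rev⟩

theorem sum_rev (f : D → ℝ) : ∑ d, f (N.rev d) = ∑ d, f d :=
  Equiv.sum_comp N.revE f

/-- The Laplacian. -/
def L (φ : V → ℝ) (x : V) : ℝ := ∑ d : D, if N.src d = x then (φ x - φ (N.tgt d)) else 0

theorem sum_mul_L (ψ φ : V → ℝ) :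
    ∑ x, ψ x * N.L φ x = ∑ d, ψ (N.src d) * (φ (N.src d) - φ (N.tgt d)) := by
  unfold L
  simp_rw [Finset.mul_sum]
  rw [Finset.sum_comm]
  apply Finset.sum_congr rfl
  intro d _
  rw [Finset.sum_eq_single (N.src d)]
  · simp
  · intro b _ hb
    rw [if_neg (fun h => hb h.symm), mul_zero]
  · intro h; exact absurd (Finset.mem_univ _) h

theorem sum_mul_L' (ψ φ : V → ℝ) :
    ∑ x, ψ x * N.L φ x =
      (∑ d, (ψ (N.src d) - ψ (N.tgt d)) * (φ (N.src d) - φ (N.tgt d))) / 2 := by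
  have h1 := N.sum_mul_L ψ φ
  have h2 : ∑ d, ψ (N.src d) * (φ (N.src d) - φ (N.tgt d))
      = ∑ d, ψ (N.tgt d) * (φ (N.tgt d) - φ (N.src d)) := by
    rw [← N.sum_rev]
    apply Finset.sum_congr rfl
    intro d _
    rw [N.tgt_rev]
    rfl
  have h3 : ∑ d, (ψ (N.src d) - ψ (N.tgt d)) * (φ (N.src d) - φ (N.tgt d))
      = ∑ d, ψ (N.src d) * (φ (N.src d) - φ (N.tgt d))
        + ∑ d, ψ (N.tgt d) * (φ (N.tgt d) - φ (N.src d)) := by
    rw [← Finset.sum_add_distrib]
    apply Finset.sum_congr rfl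
    intro d _
    ring
  rw [h3, ← h2, h1]
  ring

theorem sum_mul_L_comm (ψ φ : V → ℝ) : ∑ x, ψ x * N.L φ x = ∑ x, φ x * N.L ψ x := by
  rw [N.sum_mul_L', N.sum_mul_L']
  congr 1
  apply Finset.sum_congr rfl
  intro d _
  ring

theorem L_psd (φ : V → ℝ) : 0 ≤ ∑ x, φ x * N.L φ x := by
  rw [N.sum_mul_L']
  apply div_nonneg _ (by norm_num)
  apply Finset.sum_nonneg
  intro d _
  exact mul_self_nonneg _

theorem L_sub (φ ψ : V → ℝ) (x : V) : N.L (fun z => φ z - ψ z) x = N.L φ x - N.L ψ x := by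
  unfold L
  rw [← Finset.sum_sub_distrib]
  apply Finset.sum_congr rfl
  intro d _
  split_ifs <;> ring

theorem L_add (φ ψ : V → ℝ) (x : V) : N.L (fun z => φ z + ψ z) x = N.L φ x + N.L ψ x := by
  unfold L
  rw [← Finset.sum_add_distrib]
  apply Finset.sum_congr rfl
  intro d _
  split_ifs <;> ring

theorem L_smul (c : ℝ) (φ : V → ℝ) (x : V) : N.L (fun z => c * φ z) x = c * N.L φ x := by
  unfold L
  rw [Finset.mul_sum]
  apply Finset.sum_congr rfl
  intro d _
  split_ifs <;> ring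

theorem sum_L (φ : V → ℝ) : ∑ x, N.L φ x = 0 := by
  have h := N.sum_mul_L' (fun _ => 1) φ
  simpa using h

/-- The killed operator. -/
def T (ε : ℝ) : (V → ℝ) →ₗ[ℝ] (V → ℝ) where
  toFun φ z := ε * φ z + N.L φ z
  map_add' φ ψ := by
    funext z
    have := N.L_add φ ψ z
    show ε * (φ z + ψ z) + N.L (fun z => φ z + ψ z) z = _
    rw [this]
    simp only [Pi.add_apply]
    ring
  map_smul' c φ := by
    funext z
    have := N.L_smul c φ z
    show ε * (c * φ z) + N.L (fun z => c * φ z) z = _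
    rw [this]
    simp only [RingHom.id_apply, Pi.smul_apply, smul_eq_mul]
    ring

theorem T_injective {ε : ℝ} (hε : 0 < ε) : Function.Injective (N.T ε) := by
  rw [← LinearMap.ker_eq_bot, LinearMap.ker_eq_bot']
  intro φ hφ
  have h1 : ∀ z, ε * φ z + N.L φ z = 0 := fun z => congrFun hφ z
  have h2 : ∑ z, φ z * (ε * φ z + N.L φ z) = 0 := by
    apply Finset.sum_eq_zero
    intro z _
    rw [h1 z, mul_zero]
  have h3 : ∑ z, φ z * (ε * φ z + N.L φ z) = ε * ∑ z, φ z * φ z + ∑ z, φ z * N.L φ z := by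
    rw [Finset.mul_sum, ← Finset.sum_add_distrib]
    apply Finset.sum_congr rfl
    intro z _
    ring
  have h4 := N.L_psd φ
  have h5 : 0 ≤ ∑ z, φ z * φ z := Finset.sum_nonneg (fun z _ => mul_self_nonneg _)
  have h6 : ∑ z, φ z * φ z = 0 := by
    rcases eq_or_lt_of_le h5 with h | h
    · exact h.symm
    · have := mul_pos hε h
      linarith
  rw [Finset.sum_eq_zero_iff_of_nonneg (fun z _ => mul_self_nonneg _)] at h6
  funext z
  have := h6 z (Finset.mem_univ z)
  simpa using this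

theorem exists_green {ε : ℝ} (hε : 0 < ε) (x : V) :
    ∃ g : V → ℝ, ∀ z, ε * g z + N.L g z = if z = x then 1 else 0 := by
  have hs : Function.Surjective (N.T ε) :=
    LinearMap.injective_iff_surjective.mp (N.T_injective hε)
  obtain ⟨g, hg⟩ := hs (fun z => if z = x then 1 else 0)
  exact ⟨g, fun z => congrFun hg z⟩

theorem nonneg_of_super {ε : ℝ} (hε : 0 < ε) (g : V → ℝ)
    (hg : ∀ z, 0 ≤ ε * g z + N.L g z) (z : V) : 0 ≤ g z := by
  haveI : Nonempty V := ⟨z⟩
  obtain ⟨z0, hz0⟩ := Finite.exists_min g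
  have h1 : N.L g z0 ≤ 0 := by
    unfold L
    apply Finset.sum_nonpos
    intro d _
    split_ifs
    · have := hz0 (N.tgt d)
      linarith
    · exact le_refl _
  have h2 : 0 ≤ ε * g z0 := by
    have := hg z0
    linarith
  have h3 : 0 ≤ g z0 := by
    by_contra h
    push Not at h
    have := mul_neg_of_pos_of_neg hε h
    linarith
  linarith [hz0 z]

/-- One step of the recursion for voltage ratios. -/
noncomputable def F (ε : ℝ) (θ : D → ℝ) (d : D) : ℝ :=
  1 / (1 + ε + ∑ f : D, if N.src f = N.tgt d ∧ f ≠ N.rev d then (1 - θ f) else 0)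

/-- The super-solutions of the recursion. -/
def Sup (ε : ℝ) : Set (D → ℝ) :=
  {θ | (∀ d, 0 ≤ θ d ∧ θ d ≤ 1) ∧ ∀ d, N.F ε θ d ≤ θ d}

/-- The minimal solution. -/
noncomputable def rho (ε : ℝ) (d : D) : ℝ := sInf ((fun θ : D → ℝ => θ d) '' N.Sup ε)

theorem sum_if_nonneg (θ : D → ℝ) (hθ : ∀ d, θ d ≤ 1) (d : D) :
    0 ≤ ∑ f : D, if N.src f = N.tgt d ∧ f ≠ N.rev d then (1 - θ f) else 0 := by
  apply Finset.sum_nonneg
  intro f _
  split_ifs
  · linarith [hθ f]
  · exact le_refl _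

theorem F_nonneg {ε : ℝ} (hε : 0 < ε) (θ : D → ℝ) (hθ : ∀ d, θ d ≤ 1) (d : D) :
    0 ≤ N.F ε θ d := by
  unfold F
  have := N.sum_if_nonneg θ hθ d
  positivity

theorem F_le_one {ε : ℝ} (hε : 0 < ε) (θ : D → ℝ) (hθ : ∀ d, θ d ≤ 1) (d : D) :
    N.F ε θ d ≤ 1 := by
  unfold F
  have := N.sum_if_nonneg θ hθ d
  rw [div_le_one (by positivity)]
  linarith

theorem F_mono {ε : ℝ} (hε : 0 < ε) (θ θ' : D → ℝ) (hθ : ∀ d, θ' d ≤ 1)
    (h : ∀ d, θ d ≤ θ' d) (d : D) : N.F ε θ d ≤ N.F ε θ' d := by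
  unfold F
  have h0 := N.sum_if_nonneg θ' hθ d
  apply one_div_le_one_div_of_le (by positivity)
  have : (∑ f : D, if N.src f = N.tgt d ∧ f ≠ N.rev d then (1 - θ' f) else 0)
      ≤ ∑ f : D, if N.src f = N.tgt d ∧ f ≠ N.rev d then (1 - θ f) else 0 := by
    apply Finset.sum_le_sum
    intro f _
    split_ifs
    · linarith [h f]
    · exact le_refl _
  linarith

theorem one_mem {ε : ℝ} (hε : 0 < ε) : (fun _ => 1 : D → ℝ) ∈ N.Sup ε :=
  ⟨fun _ => ⟨zero_le_one, le_refl _⟩, fun d => N.F_le_one hε _ (fun _ => le_refl _) d⟩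

theorem rho_le {ε : ℝ} {θ : D → ℝ} (hθ : θ ∈ N.Sup ε) (d : D) : N.rho ε d ≤ θ d := by
  apply csInf_le
  · refine ⟨0, ?_⟩
    rintro _ ⟨θ', hθ', rfl⟩
    exact (hθ'.1 d).1
  · exact ⟨θ, hθ, rfl⟩

theorem le_rho {ε : ℝ} (hε : 0 < ε) {a : ℝ} {d : D} (h : ∀ θ ∈ N.Sup ε, a ≤ θ d) :
    a ≤ N.rho ε d := by
  apply le_csInf
  · exact ⟨_, (fun _ => 1), N.one_mem hε, rfl⟩
  · rintro _ ⟨θ', hθ', rfl⟩
    exact h θ' hθ'

theorem rho_nonneg {ε : ℝ} (hε : 0 < ε) (d : D) : 0 ≤ N.rho ε d :=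
  N.le_rho hε (fun _ hθ => (hθ.1 d).1)

theorem rho_le_one {ε : ℝ} (hε : 0 < ε) (d : D) : N.rho ε d ≤ 1 :=
  N.rho_le (N.one_mem hε) d

theorem F_rho_le {ε : ℝ} (hε : 0 < ε) (d : D) : N.F ε (N.rho ε) d ≤ N.rho ε d := by
  apply N.le_rho hε
  intro θ hθ
  exact le_trans (N.F_mono hε _ _ (fun d => (hθ.1 d).2) (fun d => N.rho_le hθ d) d) (hθ.2 d)

theorem rho_eq {ε : ℝ} (hε : 0 < ε) (d : D) : N.rho ε d = N.F ε (N.rho ε) d := by
  apply le_antisymm _ (N.F_rho_le hε d)
  apply N.rho_le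
  refine ⟨fun d => ⟨N.F_nonneg hε _ (fun d => N.rho_le_one hε d) d,
    N.F_le_one hε _ (fun d => N.rho_le_one hε d) d⟩, ?_⟩
  intro d
  exact N.F_mono hε _ _ (fun d => N.rho_le_one hε d) (fun d => N.F_rho_le hε d) d

/-- Branch conductance of a dart. -/
noncomputable def c (ε : ℝ) (d : D) : ℝ := 1 - N.rho ε d

/-- Tree-like conductance to the ground at a vertex. -/
noncomputable def C (ε : ℝ) (x : V) : ℝ := ε + ∑ d : D, if N.src d = x then N.c ε d else 0

/-- Conductance beyond the head of a dart. -/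
noncomputable def P (ε : ℝ) (d : D) : ℝ :=
  ε + ∑ f : D, if N.src f = N.tgt d ∧ f ≠ N.rev d then N.c ε f else 0

theorem c_nonneg {ε : ℝ} (hε : 0 < ε) (d : D) : 0 ≤ N.c ε d := by
  unfold c; linarith [N.rho_le_one hε d]

theorem c_le_one {ε : ℝ} (hε : 0 < ε) (d : D) : N.c ε d ≤ 1 := by
  unfold c; linarith [N.rho_nonneg hε d]

theorem eps_le_P {ε : ℝ} (hε : 0 < ε) (d : D) : ε ≤ N.P ε d := by
  unfold P
  have : 0 ≤ ∑ f : D, if N.src f = N.tgt d ∧ f ≠ N.rev d then N.c ε f else 0 := by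
    apply Finset.sum_nonneg
    intro f _
    split_ifs
    · exact N.c_nonneg hε f
    · exact le_refl _
  linarith

theorem P_pos {ε : ℝ} (hε : 0 < ε) (d : D) : 0 < N.P ε d :=
  lt_of_lt_of_le hε (N.eps_le_P hε d)

theorem c_eq {ε : ℝ} (hε : 0 < ε) (d : D) : N.c ε d = N.P ε d / (1 + N.P ε d) := by
  have h1 : N.rho ε d = 1 / (1 + N.P ε d) := by
    rw [N.rho_eq hε d]
    unfold F P c
    rw [add_assoc]
  have h2 := N.P_pos hε d
  unfold c
  rw [h1]
  field_simp
  ring

theorem C_tgt (ε : ℝ) (d : D) : N.C ε (N.tgt d) = N.P ε d + N.c ε (N.rev d) := by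
  unfold C P
  have h : ∀ f : D, (if N.src f = N.tgt d then N.c ε f else 0)
      = (if N.src f = N.tgt d ∧ f ≠ N.rev d then N.c ε f else 0)
        + (if f = N.rev d then N.c ε f else 0) := by
    intro f
    by_cases hf : f = N.rev d
    · subst hf
      have : N.src (N.rev d) = N.tgt d := rfl
      simp [this]
    · simp [hf]
  simp_rw [h]
  rw [Finset.sum_add_distrib]
  simp
  ring

theorem C_src (ε : ℝ) (d : D) : N.C ε (N.src d) = N.P ε (N.rev d) + N.c ε d := by
  have := N.C_tgt ε (N.rev d)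
  rwa [N.tgt_rev, N.rev_rev] at this

theorem C_pos {ε : ℝ} (hε : 0 < ε) (x : V) : 0 < N.C ε x := by
  unfold C
  have : 0 ≤ ∑ f : D, if N.src f = x then N.c ε f else 0 := by
    apply Finset.sum_nonneg
    intro f _
    split_ifs
    · exact N.c_nonneg hε f
    · exact le_refl _
  linarith

/-- Voltage ratios along darts are at least `rho`. -/
theorem ratio_ge {ε : ℝ} (hε : 0 < ε) (g : V → ℝ) (hg0 : ∀ z, 0 ≤ g z)
    (hg : ∀ z, 0 ≤ ε * g z + N.L g z) (d : D) :
    N.rho ε d * g (N.src d) ≤ g (N.tgt d) := by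
  classical
  set θ : D → ℝ := fun d => if 0 < g (N.src d) then min 1 (g (N.tgt d) / g (N.src d)) else 1
    with hθ
  have hθ1 : ∀ d, θ d ≤ 1 := by
    intro d
    simp only [hθ]
    split_ifs
    · exact min_le_left _ _
    · exact le_refl _
  have hθ0 : ∀ d, 0 ≤ θ d := by
    intro d
    simp only [hθ]
    split_ifs with h
    · exact le_min zero_le_one (div_nonneg (hg0 _) h.le)
    · exact zero_le_one
  -- drop bound
  have hdrop : ∀ f, g (N.src f) - g (N.tgt f) ≤ (1 - θ f) * g (N.src f) := by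
    intro f
    simp only [hθ]
    split_ifs with h
    · have h1 : min 1 (g (N.tgt f) / g (N.src f)) ≤ g (N.tgt f) / g (N.src f) := min_le_right _ _
      have h2 : min 1 (g (N.tgt f) / g (N.src f)) * g (N.src f) ≤ g (N.tgt f) := by
        calc min 1 (g (N.tgt f) / g (N.src f)) * g (N.src f)
            ≤ (g (N.tgt f) / g (N.src f)) * g (N.src f) := mul_le_mul_of_nonneg_right h1 h.le
          _ = g (N.tgt f) := div_mul_cancel₀ _ h.ne'
      linarith
    · have h1 : g (N.src f) = 0 := le_antisymm (not_lt.mp h) (hg0 _)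
      have h2 := hg0 (N.tgt f)
      rw [h1]
      linarith
  have hmem : θ ∈ N.Sup ε := by
    refine ⟨fun d => ⟨hθ0 d, hθ1 d⟩, ?_⟩
    intro d
    have hF1 := N.F_le_one hε θ hθ1 d
    by_cases hs : 0 < g (N.src d)
    swap
    · have : θ d = 1 := by simp only [hθ]; rw [if_neg hs]
      rw [this]; exact hF1
    have hθd : θ d = min 1 (g (N.tgt d) / g (N.src d)) := by simp only [hθ]; rw [if_pos hs]
    rw [hθd]
    apply le_min hF1
    rw [le_div_iff₀ hs]
    -- F θ d * g (src d) ≤ g (tgt d)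
    have h0 := N.sum_if_nonneg θ hθ1 d
    unfold F
    rw [div_mul_eq_mul_div, one_mul, div_le_iff₀ (by positivity)]
    -- inequality at the head
    have h1 := hg (N.tgt d)
    have h2 : N.L g (N.tgt d) = (g (N.tgt d) - g (N.src d))
        + ∑ f : D, if N.src f = N.tgt d ∧ f ≠ N.rev d then (g (N.tgt d) - g (N.tgt f)) else 0 := by
      unfold L
      have h : ∀ f : D, (if N.src f = N.tgt d then (g (N.tgt d) - g (N.tgt f)) else 0)
          = (if f = N.rev d then (g (N.tgt d) - g (N.tgt f)) else 0)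
          + (if N.src f = N.tgt d ∧ f ≠ N.rev d then (g (N.tgt d) - g (N.tgt f)) else 0) := by
        intro f
        by_cases hf : f = N.rev d
        · subst hf
          have : N.src (N.rev d) = N.tgt d := rfl
          simp [this]
        · simp [hf]
      simp_rw [h]
      rw [Finset.sum_add_distrib]
      simp [N.tgt_rev]
    have h3 : (∑ f : D, if N.src f = N.tgt d ∧ f ≠ N.rev d then (g (N.tgt d) - g (N.tgt f)) else 0)
        ≤ ∑ f : D, (if N.src f = N.tgt d ∧ f ≠ N.rev d then (1 - θ f) else 0) * g (N.tgt d) := by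
      apply Finset.sum_le_sum
      intro f _
      split_ifs with hf
      · have := hdrop f
        rw [hf.1] at this
        exact this
      · simp
    rw [← Finset.sum_mul] at h3
    rw [h2] at h1
    nlinarith
  have hr := N.rho_le hmem d
  by_cases hs : 0 < g (N.src d)
  · have hθd : θ d = min 1 (g (N.tgt d) / g (N.src d)) := by simp only [hθ]; rw [if_pos hs]
    have h1 : N.rho ε d ≤ g (N.tgt d) / g (N.src d) := le_trans hr (by rw [hθd]; exact min_le_right _ _)
    rwa [le_div_iff₀ hs] at h1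
  · have h1 : g (N.src d) = 0 := le_antisymm (not_lt.mp hs) (hg0 _)
    rw [h1, mul_zero]
    exact hg0 _

theorem green_ge {ε : ℝ} (hε : 0 < ε) (x : V) (g : V → ℝ)
    (hg : ∀ z, ε * g z + N.L g z = if z = x then 1 else 0) : 1 / N.C ε x ≤ g x := by
  have hg' : ∀ z, 0 ≤ ε * g z + N.L g z := by
    intro z; rw [hg z]; split_ifs <;> norm_num
  have hg0 := N.nonneg_of_super hε g hg'
  have h1 := hg x
  rw [if_pos rfl] at h1
  rw [div_le_iff₀ (N.C_pos hε x)]
  have h2 : N.L g x ≤ (∑ d : D, if N.src d = x then N.c ε d else 0) * g x := by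
    unfold L
    rw [Finset.sum_mul]
    apply Finset.sum_le_sum
    intro d _
    split_ifs with h
    · have := N.ratio_ge hε g hg0 hg' d
      rw [h] at this
      unfold c
      linarith
    · simp
  unfold C
  linarith

end Darts

end R653.AR
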