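import Mathlib
import Pool.Agent.R653.AR.Dart

/-!
The charging argument: `∑_x 1 / C_x ≥ K |V| - s |D| - O(ε |V|)`.
-/

namespace R653.AR

open Finset

namespace Darts

variable {V D : Type*} [Fintype V] [DecidableEq V] [Fintype D] [DecidableEq D]
  (N : Darts V D)

noncomputable def kap (ε K : ℝ) (d : D) : ℝ :=
  N.c ε d / N.C ε (N.src d) * (1 / N.C ε (N.src d) - K)

theorem kap_eq {ε : ℝ} (hε : 0 < ε) (K : ℝ) (d : D) :
    N.kap ε K d = N.P ε d * (1 + N.P ε d) /
        (N.P ε d + N.P ε (N.rev d) + N.P ε d * N.P ε (N.rev d)) ^ 2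
      - K * N.P ε d / (N.P ε d + N.P ε (N.rev d) + N.P ε d * N.P ε (N.rev d)) := by
  have hp := N.P_pos hε d
  have hr := N.P_pos hε (N.rev d)
  unfold kap
  rw [N.C_src, N.c_eq hε d]
  set p := N.P ε d
  set r := N.P ε (N.rev d)
  have h1 : (1 + p) ≠ 0 := by positivity
  have h2 : p + r + p * r ≠ 0 := by positivity
  have h3 : r + p / (1 + p) = (p + r + p * r) / (1 + p) := by
    field_simp; ring
  rw [h3]
  field_simp

theorem kap_pair {ε : ℝ} (hε : 0 < ε) (K s : ℝ) (d : D) :
    N.kap ε K d + N.kap ε K (N.rev d) + 2 * s = Phi K s (N.P ε d) (N.P ε (N.rev d)) := by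
  rw [N.kap_eq hε, N.kap_eq hε, N.rev_rev]
  unfold Phi
  have hp := N.P_pos hε d
  have hr := N.P_pos hε (N.rev d)
  set p := N.P ε d
  set r := N.P ε (N.rev d)
  have h : r + p + r * p = p + r + p * r := by ring
  rw [h]
  have h2 : p + r + p * r ≠ 0 := by positivity
  field_simp
  ring

theorem vertex_sum {ε : ℝ} (hε : 0 < ε) (K : ℝ) (x : V) :
    1 / N.C ε x - K = (∑ d : D, if N.src d = x then N.kap ε K d else 0)
      + ε / N.C ε x * (1 / N.C ε x - K) := by
  have hC := N.C_pos hε x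
  have h1 : (∑ d : D, if N.src d = x then N.kap ε K d else 0)
      = (∑ d : D, if N.src d = x then N.c ε d else 0) * ((1 / N.C ε x) * (1 / N.C ε x - K)) := by
    rw [Finset.sum_mul]
    apply Finset.sum_congr rfl
    intro d _
    split_ifs with h
    · unfold kap; rw [h]; ring
    · simp
  have h2 : (∑ d : D, if N.src d = x then N.c ε d else 0) = N.C ε x - ε := by
    unfold C; ring
  rw [h1, h2]
  field_simp
  ring

theorem vertex_ge {ε : ℝ} (hε : 0 < ε) (K : ℝ) (x : V) :
    (∑ d : D, if N.src d = x then N.kap ε K d else 0) - ε * (K ^ 2 / 4) ≤ 1 / N.C ε x - K := by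
  have h := N.vertex_sum hε K x
  have h1 : -(K ^ 2 / 4) ≤ 1 / N.C ε x * (1 / N.C ε x - K) := by
    nlinarith [sq_nonneg (1 / N.C ε x - K / 2)]
  have h2 : ε / N.C ε x * (1 / N.C ε x - K) = ε * (1 / N.C ε x * (1 / N.C ε x - K)) := by ring
  have h3 : ε * (-(K ^ 2 / 4)) ≤ ε * (1 / N.C ε x * (1 / N.C ε x - K)) :=
    mul_le_mul_of_nonneg_left h1 hε.le
  rw [h2] at h
  linarith

theorem c_le_P_rev {ε : ℝ} (hε : 0 < ε) {f g : D} (h : N.src f = N.src g) (hne : f ≠ g) :
    N.c ε g + ε ≤ N.P ε (N.rev f) := by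
  unfold P
  have h1 : (if N.src g = N.tgt (N.rev f) ∧ g ≠ N.rev (N.rev f) then N.c ε g else 0)
      ≤ ∑ e : D, if N.src e = N.tgt (N.rev f) ∧ e ≠ N.rev (N.rev f) then N.c ε e else 0 := by
    apply Finset.single_le_sum (f := fun e => if N.src e = N.tgt (N.rev f) ∧ e ≠ N.rev (N.rev f) then N.c ε e else 0)
    · intro e _
      split_ifs
      · exact N.c_nonneg hε e
      · exact le_refl _
    · exact Finset.mem_univ g
  rw [if_pos] at h1
  · linarith
  · rw [N.tgt_rev, N.rev_rev]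
    exact ⟨h.symm, hne.symm⟩

theorem P_rev_eq {ε : ℝ} {f : D} (h : ∀ g, N.src g = N.src f → g = f) :
    N.P ε (N.rev f) = ε := by
  unfold P
  rw [Finset.sum_eq_zero]
  · simp
  · intro e _
    rw [if_neg]
    rw [N.tgt_rev, N.rev_rev]
    rintro ⟨h1, h2⟩
    exact h2 (h e h1)

/-- The charge of a dart. -/
noncomputable def chg (ε K s : ℝ) (d : D) : ℝ :=
  if Phi K s (N.P ε d) (N.P ε (N.rev d)) < 0 then
    (if N.P ε (N.rev d) ≤ N.P ε d then Phi K s (N.P ε d) (N.P ε (N.rev d)) else 0)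
  else
    (if N.P ε d < N.P ε (N.rev d) then Phi K s (N.P ε d) (N.P ε (N.rev d)) else 0)

theorem chg_pair (ε K s : ℝ) (d : D) :
    N.chg ε K s d + N.chg ε K s (N.rev d) ≤ Phi K s (N.P ε d) (N.P ε (N.rev d)) := by
  unfold chg
  rw [N.rev_rev, Phi_symm K s (N.P ε (N.rev d)) (N.P ε d)]
  split_ifs <;> linarith

theorem chg_nonneg_of {ε K s : ℝ} {d : D}
    (h : ¬ (Phi K s (N.P ε d) (N.P ε (N.rev d)) < 0 ∧ N.P ε (N.rev d) ≤ N.P ε d)) :
    0 ≤ N.chg ε K s d := by
  unfold chg
  split_ifs with h1 h2 h3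
  · exact absurd ⟨h1, h2⟩ h
  · exact le_refl _
  · exact not_lt.mp h1
  · exact le_refl _

theorem chg_vertex {ε K s : ℝ} (hε : 0 < ε) (hG : Good K s) (x : V) :
    -0.3 * ε ≤ ∑ d : D, if N.src d = x then N.chg ε K s d else 0 := by
  by_cases hbad : ∃ d0, N.src d0 = x ∧ Phi K s (N.P ε d0) (N.P ε (N.rev d0)) < 0 ∧
      N.P ε (N.rev d0) ≤ N.P ε d0
  swap
  · have : 0 ≤ ∑ d : D, if N.src d = x then N.chg ε K s d else 0 := by
      apply Finset.sum_nonneg
      intro d _
      split_ifs with h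
      · apply N.chg_nonneg_of
        rintro ⟨h1, h2⟩
        exact hbad ⟨d, h, h1, h2⟩
      · exact le_refl _
    linarith
  obtain ⟨d0, hd0, hneg, hle⟩ := hbad
  have hp0 := N.P_pos hε d0
  have hr0 := N.P_pos hε (N.rev d0)
  obtain ⟨hp16, hr42⟩ := neg_imp' hG hp0 hr0 hneg hle
  have hchg0 : N.chg ε K s d0 = Phi K s (N.P ε d0) (N.P ε (N.rev d0)) := by
    unfold chg; rw [if_pos hneg, if_pos hle]
  have hother : ∀ f, N.src f = x → f ≠ d0 → 0.0211 ≤ N.chg ε K s f := by
    intro f hf hne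
    have h1 : N.c ε f + ε ≤ N.P ε (N.rev d0) := N.c_le_P_rev hε (by rw [hf, hd0]) (Ne.symm hne)
    have h2 : N.c ε d0 + ε ≤ N.P ε (N.rev f) := N.c_le_P_rev hε (by rw [hf, hd0]) hne
    have h3 : (0.94 : ℝ) ≤ N.c ε d0 := by
      rw [N.c_eq hε, le_div_iff₀ (by positivity)]
      linarith
    have h4 : N.P ε (N.rev f) + N.c ε f = N.P ε (N.rev d0) + N.c ε d0 := by
      rw [← N.C_src, ← N.C_src, hf, hd0]
    have h5 := N.c_le_one hε d0
    have h6 := N.c_eq hε f
    obtain ⟨h7, h8⟩ := Phi_side (K := K) (s := s) hG (N.P_pos hε f) (r := N.P ε (N.rev f))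
      (by rw [← h6]; linarith) (by linarith) (by rw [← h6]; linarith)
    unfold chg
    rw [if_neg (by linarith), if_pos h8]
    exact h7
  have hge := Phi_ge_const hG hp0 hr0
  -- split off d0
  rw [← Finset.add_sum_erase _ _ (Finset.mem_univ d0), if_pos hd0, hchg0]
  by_cases hex : ∃ f, N.src f = x ∧ f ≠ d0
  · obtain ⟨f, hf, hne⟩ := hex
    have h1 : (if N.src f = x then N.chg ε K s f else 0)
        ≤ ∑ e ∈ Finset.univ.erase d0, if N.src e = x then N.chg ε K s e else 0 := by
      apply Finset.single_le_sum (f := fun e => if N.src e = x then N.chg ε K s e else 0)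
      · intro e he
        split_ifs with h
        · have := hother e h (Finset.ne_of_mem_erase he)
          linarith
        · exact le_refl _
      · exact Finset.mem_erase.mpr ⟨hne, Finset.mem_univ f⟩
    rw [if_pos hf] at h1
    have h2 := hother f hf hne
    linarith
  · push Not at hex
    have h1 : ∑ e ∈ Finset.univ.erase d0, (if N.src e = x then N.chg ε K s e else 0) = 0 := by
      apply Finset.sum_eq_zero
      intro e he
      rw [if_neg]
      intro h
      exact Finset.ne_of_mem_erase he (hex e h)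
    rw [h1, add_zero]
    have h2 : N.P ε (N.rev d0) = ε := N.P_rev_eq (fun g hg => hex g (by rw [hg, hd0]))
    have h3 := Phi_ge_lin hG hp0 hr0
    rwa [h2] at h3 ⊢

theorem main_sum {ε K s : ℝ} (hε : 0 < ε) (hG : Good K s) :
    K * Fintype.card V - s * Fintype.card D - ε * Fintype.card V * (K ^ 2 / 4 + 0.3)
      ≤ ∑ x, 1 / N.C ε x := by
  have h1 : ∑ x : V, ((∑ d : D, if N.src d = x then N.kap ε K d else 0) - ε * (K ^ 2 / 4))
      ≤ ∑ x : V, (1 / N.C ε x - K) := Finset.sum_le_sum (fun x _ => N.vertex_ge hε K x)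
  have hswap : ∀ h : D → ℝ, ∑ x : V, ∑ d : D, (if N.src d = x then h d else 0) = ∑ d, h d := by
    intro h
    rw [Finset.sum_comm]
    apply Finset.sum_congr rfl
    intro d _
    rw [Finset.sum_ite_eq]
    simp
  rw [Finset.sum_sub_distrib, hswap, Finset.sum_sub_distrib] at h1
  simp only [Finset.sum_const, Finset.card_univ, nsmul_eq_mul] at h1
  have h2 : ∑ x : V, (-0.3 * ε) ≤ ∑ x : V, ∑ d : D, if N.src d = x then N.chg ε K s d else 0 :=
    Finset.sum_le_sum (fun x _ => N.chg_vertex hε hG x)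
  rw [hswap] at h2
  simp only [Finset.sum_const, Finset.card_univ, nsmul_eq_mul] at h2
  have h3 : ∑ d, N.chg ε K s d + ∑ d, N.chg ε K s d
      ≤ ∑ d, N.kap ε K d + ∑ d, N.kap ε K d + 2 * s * Fintype.card D := by
    calc ∑ d, N.chg ε K s d + ∑ d, N.chg ε K s d
        = ∑ d, (N.chg ε K s d + N.chg ε K s (N.rev d)) := by
          rw [Finset.sum_add_distrib, N.sum_rev (fun d => N.chg ε K s d)]
      _ ≤ ∑ d, (N.kap ε K d + N.kap ε K (N.rev d) + 2 * s) := by
          apply Finset.sum_le_sum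
          intro d _
          rw [N.kap_pair hε]
          exact N.chg_pair ε K s d
      _ = ∑ d, N.kap ε K d + ∑ d, N.kap ε K d + 2 * s * Fintype.card D := by
          rw [Finset.sum_add_distrib, Finset.sum_add_distrib, N.sum_rev (fun d => N.kap ε K d)]
          simp only [Finset.sum_const, Finset.card_univ, nsmul_eq_mul]
          ring
  nlinarith

/-- Energy comparison: the resistance is at least the killed one. -/
theorem res_ge {ε : ℝ} (hε : 0 < ε) (g : V → V → ℝ)
    (hg : ∀ x z, ε * g x z + N.L (g x) z = if z = x then 1 else 0) (x y : V) (φ : V → ℝ)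
    (hφ : ∀ z, N.L φ z = (if z = x then 1 else 0) - (if z = y then 1 else 0)) :
    g x x - g x y - g y x + g y y ≤ φ x - φ y ∧ 0 ≤ g x x - g x y - g y x + g y y := by
  set h : V → ℝ := fun z => g x z - g y z with hh
  have hLh : ∀ z, N.L h z = (if z = x then 1 else 0) - (if z = y then 1 else 0) - ε * h z := by
    intro z
    have h1 := hg x z
    have h2 := hg y z
    have h3 := N.L_sub (g x) (g y) z
    rw [hh]
    rw [h3]
    simp only
    linarith
  have hpair : ∀ ψ : V → ℝ, ∑ z, ψ z * ((if z = x then (1:ℝ) else 0) - (if z = y then 1 else 0))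
      = ψ x - ψ y := by
    intro ψ
    simp [mul_sub, Finset.sum_sub_distrib]
  have e1 : ∑ z, h z * N.L φ z = h x - h y := by
    simp_rw [hφ]; exact hpair h
  have e2 : ∑ z, φ z * N.L φ z = φ x - φ y := by
    simp_rw [hφ]; exact hpair φ
  have e3 : ∑ z, h z * N.L h z = (h x - h y) - ε * ∑ z, h z * h z := by
    rw [← hpair h, Finset.mul_sum, ← Finset.sum_sub_distrib]
    apply Finset.sum_congr rfl
    intro z _
    rw [hLh]
    ring
  have e4 := N.L_psd (fun z => φ z - h z)
  have e5 : ∑ z, (φ z - h z) * N.L (fun z => φ z - h z) z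
      = ∑ z, φ z * N.L φ z - ∑ z, φ z * N.L h z - ∑ z, h z * N.L φ z + ∑ z, h z * N.L h z := by
    rw [← Finset.sum_sub_distrib, ← Finset.sum_sub_distrib, ← Finset.sum_add_distrib]
    apply Finset.sum_congr rfl
    intro z _
    rw [N.L_sub]
    ring
  have e6 := N.sum_mul_L_comm φ h
  have e7 : 0 ≤ ∑ z, h z * h z := Finset.sum_nonneg (fun z _ => mul_self_nonneg _)
  have e8 := N.L_psd h
  have e9 : 0 ≤ ε * ∑ z, h z * h z := mul_nonneg hε.le e7
  have e10 : g x x - g x y - g y x + g y y = h x - h y := by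
    simp only [hh]; ring
  rw [e10]
  constructor
  · rw [e5, e6, e1, e2, e3] at e4
    linarith
  · linarith

theorem h_nonneg {ε : ℝ} (hε : 0 < ε) (g : V → V → ℝ)
    (hg : ∀ x z, ε * g x z + N.L (g x) z = if z = x then 1 else 0) (x y : V) :
    0 ≤ g x x - g x y - g y x + g y y := by
  set h : V → ℝ := fun z => g x z - g y z with hh
  have hLh : ∀ z, N.L h z = (if z = x then 1 else 0) - (if z = y then 1 else 0) - ε * h z := by
    intro z
    have h1 := hg x z
    have h2 := hg y z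
    have h3 := N.L_sub (g x) (g y) z
    rw [hh]
    rw [h3]
    simp only
    linarith
  have hpair : ∀ ψ : V → ℝ, ∑ z, ψ z * ((if z = x then (1:ℝ) else 0) - (if z = y then 1 else 0))
      = ψ x - ψ y := by
    intro ψ
    simp [mul_sub, Finset.sum_sub_distrib]
  have e3 : ∑ z, h z * N.L h z = (h x - h y) - ε * ∑ z, h z * h z := by
    rw [← hpair h, Finset.mul_sum, ← Finset.sum_sub_distrib]
    apply Finset.sum_congr rfl
    intro z _
    rw [hLh]
    ring
  have e7 : 0 ≤ ∑ z, h z * h z := Finset.sum_nonneg (fun z _ => mul_self_nonneg _)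
  have e8 := N.L_psd h
  have e9 : 0 ≤ ε * ∑ z, h z * h z := mul_nonneg hε.le e7
  have e10 : g x x - g x y - g y x + g y y = h x - h y := by
    simp only [hh]; ring
  rw [e10]
  linarith

theorem sum_green {ε : ℝ} (g : V → ℝ) (x : V)
    (hg : ∀ z, ε * g z + N.L g z = if z = x then 1 else 0) : ε * ∑ z, g z = 1 := by
  have h1 : ∑ z, (ε * g z + N.L g z) = ∑ z, (if z = x then (1:ℝ) else 0) :=
    Finset.sum_congr rfl (fun z _ => hg z)
  rw [Finset.sum_add_distrib, N.sum_L, ← Finset.mul_sum] at h1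
  simpa using h1

/-- The double sum of killed resistances. -/
theorem double_sum {ε K s : ℝ} (hε : 0 < ε) (hG : Good K s) (g : V → V → ℝ)
    (hg : ∀ x z, ε * g x z + N.L (g x) z = if z = x then 1 else 0) :
    2 * Fintype.card V * (K * Fintype.card V - s * Fintype.card D
        - ε * Fintype.card V * (K ^ 2 / 4 + 0.3)) - 2 * Fintype.card V / ε
      ≤ ∑ x, ∑ y, (g x x - g x y - g y x + g y y) := by
  have h1 : ∑ x, ∑ y, (g x x - g x y - g y x + g y y)
      = 2 * Fintype.card V * ∑ x, g x x - 2 * ∑ x, ∑ y, g x y := by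
    have e1 : ∑ x, ∑ y, (g x x - g x y - g y x + g y y)
        = ∑ x, ∑ _y : V, g x x - ∑ x, ∑ y, g x y - ∑ x, ∑ y, g y x + ∑ _x : V, ∑ y, g y y := by
      simp only [Finset.sum_sub_distrib, Finset.sum_add_distrib]
    rw [e1, Finset.sum_comm (f := fun x y => g y x)]
    simp only [Finset.sum_const, Finset.card_univ, nsmul_eq_mul]
    rw [← Finset.mul_sum]
    ring
  have h2 : ε * ∑ x, ∑ y, g x y = Fintype.card V := by
    rw [Finset.mul_sum]
    rw [Finset.sum_congr rfl (fun x _ => N.sum_green (g x) x (hg x))]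
    simp
  have h3 : ∑ x, ∑ y, g x y = Fintype.card V / ε := by
    rw [eq_div_iff hε.ne', mul_comm]; exact h2
  have h4 : ∑ x, 1 / N.C ε x ≤ ∑ x, g x x :=
    Finset.sum_le_sum (fun x _ => N.green_ge hε x (g x) (hg x))
  have h5 := N.main_sum hε hG
  rw [h1, h3]
  have h6 : 0 ≤ (Fintype.card V : ℝ) := Nat.cast_nonneg _
  have h7 : 2 * (Fintype.card V : ℝ) * (K * Fintype.card V - s * Fintype.card D
        - ε * Fintype.card V * (K ^ 2 / 4 + 0.3)) ≤ 2 * (Fintype.card V : ℝ) * ∑ x, g x x :=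
    mul_le_mul_of_nonneg_left (le_trans h5 h4) (by positivity)
  have h8 : 2 * ((Fintype.card V : ℝ) / ε) = 2 * (Fintype.card V : ℝ) / ε := by ring
  linarith

end Darts

end R653.AR
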