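import Mathlib
import Pool.Agent.R653.AR.Edge

/-!
Tangent lines of `x ↦ (x-1)/(x(x-2))` and convex minorants.
-/

namespace R653.AR

/-- Intercept of the tangent line at `β`. -/
noncomputable def KK (β : ℝ) : ℝ := 1 / β + (β - 1) / (β - 2) ^ 2

/-- Minus the slope of the tangent line at `β`. -/
noncomputable def ss (β : ℝ) : ℝ := (1 / β ^ 2 + 1 / (β - 2) ^ 2) / 2

theorem inv_tangent {b u : ℝ} (hb : 0 < b) (hu : 0 < u) : (2 * b - u) / b ^ 2 ≤ 1 / u := by
  rw [div_le_div_iff₀ (by positivity) hu]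
  nlinarith [sq_nonneg (b - u)]

theorem tangent_le {β d : ℝ} (hβ : 2 < β) (hd : 2 < d) :
    KK β - ss β * d ≤ (d - 1) / (d * (d - 2)) := by
  have h1 := inv_tangent (b := β) (u := d) (by linarith) (by linarith)
  have h2 := inv_tangent (b := β - 2) (u := d - 2) (by linarith) (by linarith)
  have hb : β ≠ 0 := by positivity
  have hb2 : β - 2 ≠ 0 := by
    have : 0 < β - 2 := by linarith
    exact this.ne'
  have hd0 : d ≠ 0 := by positivity
  have hd2 : d - 2 ≠ 0 := by
    have : 0 < d - 2 := by linarith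
    exact this.ne'
  have e1 : KK β - ss β * d = ((2 * β - d) / β ^ 2 + (2 * (β - 2) - (d - 2)) / (β - 2) ^ 2) / 2 := by
    unfold KK ss
    field_simp
    ring
  have e2 : (d - 1) / (d * (d - 2)) = (1 / d + 1 / (d - 2)) / 2 := by
    field_simp
    ring
  rw [e1, e2]
  linarith

theorem tangent_at {β : ℝ} (hβ : 2 < β) : KK β - ss β * β = (β - 1) / (β * (β - 2)) := by
  unfold KK ss
  have hb : β ≠ 0 := by positivity
  have hb2 : β - 2 ≠ 0 := by
    have : 0 < β - 2 := by linarith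
    exact this.ne'
  field_simp
  ring

theorem line_two {β : ℝ} (hβ : 2 < β) :
    KK β - 2 * ss β = 1 - (β ^ 3 - 4 * β ^ 2 + 3 * β - 2) / (β ^ 2 * (β - 2)) := by
  unfold KK ss
  have hb : β ≠ 0 := by positivity
  have hb2 : β - 2 ≠ 0 := by
    have : 0 < β - 2 := by linarith
    exact this.ne'
  field_simp
  ring

theorem line_three {β : ℝ} (hβ : 3.26 ≤ β) : KK β - 3 * ss β ≤ 0.645 := by
  have hb : 0 < β := by linarith
  have hb2 : 0 < β - 2 := by linarith
  have e : KK β - 3 * ss β = (β - 1.5) / β ^ 2 + (β - 2.5) / (β - 2) ^ 2 := by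
    unfold KK ss
    field_simp
    ring
  rw [e, div_add_div _ _ (by positivity) (by positivity), div_le_iff₀ (by positivity)]
  obtain ⟨t, rfl⟩ : ∃ t, β = 3.26 + t := ⟨β - 3.26, by ring⟩
  have ht : 0 ≤ t := by linarith
  have h1 := pow_nonneg ht 2
  have h2 := pow_nonneg ht 3
  have h3 := pow_nonneg ht 4
  nlinarith

theorem good_of {β : ℝ} (hβ : 3.26 ≤ β) (hc : 0 ≤ β ^ 3 - 4 * β ^ 2 + 3 * β - 2) :
    Good (KK β) (ss β) := by
  have hβ2 : 2 < β := by linarith
  constructor
  · intro w hw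
    have h := tangent_le (d := 2 * w) hβ2 (by linarith)
    have e : (2 * w - 1) / (2 * w * (2 * w - 2)) = (2 * w - 1) / (4 * w * (w - 1)) := by
      congr 1; ring
    rw [e] at h
    linarith
  · intro w hw1 hw2
    have h3 := line_three hβ
    have h2 : KK β - 2 * ss β ≤ 1 := by
      rw [line_two hβ2]
      have : 0 ≤ (β ^ 3 - 4 * β ^ 2 + 3 * β - 2) / (β ^ 2 * (β - 2)) := by
        apply div_nonneg hc
        have : 0 < β - 2 := by linarith
        positivity
      linarith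
    have e : KK β - 2 * ss β * w
        = (3 - 2 * w) * (KK β - 2 * ss β) + (2 * w - 2) * (KK β - 3 * ss β) := by ring
    rw [e]
    have h4 : (3 - 2 * w) * (KK β - 2 * ss β) ≤ (3 - 2 * w) * 1 :=
      mul_le_mul_of_nonneg_left h2 (by linarith)
    have h5 : (2 * w - 2) * (KK β - 3 * ss β) ≤ (2 * w - 2) * 0.645 :=
      mul_le_mul_of_nonneg_left h3 (by linarith)
    linarith

theorem ss_nonneg (β : ℝ) : 0 ≤ ss β := by unfold ss; positivity

theorem exists_root : ∃ x : ℝ, 3.26 ≤ x ∧ x ≤ 3.27 ∧ x ^ 3 - 4 * x ^ 2 + 3 * x - 2 = 0 := by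
  have hcont : ContinuousOn (fun x : ℝ => x ^ 3 - 4 * x ^ 2 + 3 * x - 2) (Set.Icc 3.26 3.27) := by
    fun_prop
  have h := intermediate_value_Icc (a := (3.26 : ℝ)) (b := 3.27) (by norm_num) hcont
  have h0 : (0 : ℝ) ∈ Set.Icc ((fun x : ℝ => x ^ 3 - 4 * x ^ 2 + 3 * x - 2) 3.26)
      ((fun x : ℝ => x ^ 3 - 4 * x ^ 2 + 3 * x - 2) 3.27) := by
    constructor <;> norm_num
  obtain ⟨x, hx, hx0⟩ := h h0
  exact ⟨x, hx.1, hx.2, hx0⟩

theorem cubic_nonneg {x β : ℝ} (hx : 3.26 ≤ x) (hx2 : x ≤ 3.27)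
    (h0 : x ^ 3 - 4 * x ^ 2 + 3 * x - 2 = 0) (hβ : x ≤ β) :
    0 ≤ β ^ 3 - 4 * β ^ 2 + 3 * β - 2 := by
  have e : β ^ 3 - 4 * β ^ 2 + 3 * β - 2
      = (x ^ 3 - 4 * x ^ 2 + 3 * x - 2) + (β - x) * (β * (β + x - 4) + x * (x - 4) + 3) := by ring
  rw [e, h0, zero_add]
  apply mul_nonneg (by linarith)
  nlinarith

/-- The convex functions on `[2, ∞)` competing in the definition of the comparison function. -/
def IsMinorant (g : ℝ → ℝ) : Prop :=
  ConvexOn ℝ (Set.Ici 2) g ∧ g 2 ≤ 1 ∧ ∀ x, 2 < x → g x ≤ (x - 1) / (x * (x - 2))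

/-- Every convex minorant is, at every point, below a good line. -/
theorem exists_line {g : ℝ → ℝ} (hg : IsMinorant g) {α : ℝ} (hα : 2 ≤ α) :
    ∃ K s : ℝ, 0 ≤ s ∧ Good K s ∧ g α ≤ K - s * α := by
  obtain ⟨x, hx1, hx2, hx0⟩ := exists_root
  rcases le_total x α with h | h
  · refine ⟨KK α, ss α, ss_nonneg α, good_of (by linarith) (cubic_nonneg hx1 hx2 hx0 h), ?_⟩
    rw [tangent_at (by linarith)]
    exact hg.2.2 α (by linarith)
  · refine ⟨KK x, ss x, ss_nonneg x, good_of hx1 hx0.ge, ?_⟩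
    have h2 : KK x - 2 * ss x = 1 := by
      rw [line_two (by linarith), hx0]; simp
    have h3 : KK x - ss x * x = (x - 1) / (x * (x - 2)) := tangent_at (by linarith)
    have hgx := hg.2.2 x (by linarith)
    have hx' : 0 < x - 2 := by linarith
    have ha : 0 ≤ (x - α) / (x - 2) := div_nonneg (by linarith) hx'.le
    have hb : 0 ≤ (α - 2) / (x - 2) := div_nonneg (by linarith) hx'.le
    have hab : (x - α) / (x - 2) + (α - 2) / (x - 2) = 1 := by
      field_simp; ring
    have hxm : x ∈ Set.Ici (2 : ℝ) := by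
      rw [Set.mem_Ici]; linarith
    have hconv := hg.1.2 (show (2 : ℝ) ∈ Set.Ici (2 : ℝ) from Set.self_mem_Ici) hxm ha hb hab
    have e1 : ((x - α) / (x - 2)) • (2 : ℝ) + ((α - 2) / (x - 2)) • x = α := by
      simp only [smul_eq_mul]
      field_simp
      ring
    rw [e1] at hconv
    simp only [smul_eq_mul] at hconv
    have h4 : (x - α) / (x - 2) * g 2 ≤ (x - α) / (x - 2) * (KK x - 2 * ss x) :=
      mul_le_mul_of_nonneg_left (by rw [h2]; exact hg.2.1) (div_nonneg (by linarith) hx'.le)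
    have h5 : (α - 2) / (x - 2) * g x ≤ (α - 2) / (x - 2) * (KK x - ss x * x) :=
      mul_le_mul_of_nonneg_left (by rw [h3]; exact hgx) (div_nonneg (by linarith) hx'.le)
    have h6 : (x - α) / (x - 2) * (KK x - 2 * ss x) + (α - 2) / (x - 2) * (KK x - ss x * x)
        = KK x - ss x * α := by
      field_simp
      ring
    linarith

/-- The tangent line at `α ≥ 3.27` is itself a minorant. -/
theorem tangent_minorant {α : ℝ} (hα : 3.27 ≤ α) : IsMinorant (fun x => KK α - ss α * x) := by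
  obtain ⟨x, hx1, hx2, hx0⟩ := exists_root
  have hc := cubic_nonneg hx1 hx2 hx0 (show x ≤ α by linarith)
  refine ⟨?_, ?_, ?_⟩
  · refine ⟨convex_Ici 2, ?_⟩
    intro u _ v _ a b _ _ hab
    simp only [smul_eq_mul]
    have : KK α - ss α * (a * u + b * v)
        = a * (KK α - ss α * u) + b * (KK α - ss α * v) := by
      have hb : b = 1 - a := by linarith
      subst hb
      ring
    exact this.le
  · have h := line_two (β := α) (by linarith)
    have : 0 ≤ (α ^ 3 - 4 * α ^ 2 + 3 * α - 2) / (α ^ 2 * (α - 2)) := by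
      apply div_nonneg hc
      have : 0 < α - 2 := by linarith
      positivity
    show KK α - ss α * 2 ≤ 1
    linarith
  · intro y hy
    exact tangent_le (by linarith) hy

theorem zero_minorant : IsMinorant (fun _ => 0) := by
  refine ⟨convexOn_const 0 (convex_Ici 2), by norm_num, ?_⟩
  intro x hx
  apply div_nonneg (by linarith)
  have : 0 < x - 2 := by linarith
  positivity

end R653.AR
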